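import Pool.Agent.helper62.DP8.Spec

/-!
# sq8:OPT
-/

set_option autoImplicit false

namespace Pool.Agent.helper62.DP8

theorem OPT_radd {V : Type} {G : SimpleGraph V} {s : St} {v : ℕ → V} (h : Real G s v) {x y : ℕ} (hx : x < s.n) (hy : y < s.n)
    (hxy : G.Adj (v x) (v y)) : Real G (s.add x y) v where
  n32 := h.n32
  inj := h.inj
  wfA := by
    intro e he
    have he' : e ∈ (x, y) :: s.A := he
    rcases List.mem_cons.1 he' with he2 | he2
    · subst he2
      exact ⟨hx, hy, hxy⟩
    · exact h.wfA e he2
  wfNA := h.wfNA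
  wfNR := h.wfNR

theorem OPT_rnew {V : Type} {G : SimpleGraph V} {s : St} {v : ℕ → V} (h : Real G s v) (hn : s.n < 32) {x y : ℕ} (hx : x < s.n) (hy : y < s.n)
    {z : V} (hz : ∀ w < s.n, z ≠ v w) (hxz : G.Adj (v x) z) (hzy : G.Adj z (v y)) :
    Real G (s.new2 x y) (fun i => if i = s.n then z else v i) where
  n32 := by
    show s.n + 1 ≤ 32
    omega
  inj := by
    intro a ha b hb hab
    have ha' : a < s.n + 1 := ha
    have hb' : b < s.n + 1 := hb
    by_cases h1 : a = s.n
    · by_cases h2 : b = s.n
      · omega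
      · exfalso
        simp only [h1, h2, if_true, if_false] at hab
        exact hz b (by omega) hab
    · by_cases h2 : b = s.n
      · exfalso
        simp only [h1, h2, if_true, if_false] at hab
        exact hz a (by omega) hab.symm
      · simp only [h1, h2, if_false] at hab
        exact h.inj a (by omega) b (by omega) hab
  wfA := by
    intro e he
    have he' : e ∈ (x, s.n) :: (y, s.n) :: s.A := he
    show e.1 < s.n + 1 ∧ e.2 < s.n + 1 ∧ _
    rcases List.mem_cons.1 he' with he2 | he2
    · subst he2
      refine ⟨by show x < s.n + 1; omega, by show s.n < s.n + 1; omega, ?_⟩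
      have h1 : x ≠ s.n := by omega
      simpa [h1] using hxz
    · rcases List.mem_cons.1 he2 with he3 | he3
      · subst he3
        refine ⟨by show y < s.n + 1; omega, by show s.n < s.n + 1; omega, ?_⟩
        have h1 : y ≠ s.n := by omega
        simpa [h1] using hzy.symm
      · obtain ⟨h1, h2, h3⟩ := h.wfA e he3
        refine ⟨by omega, by omega, ?_⟩
        have h4 : e.1 ≠ s.n := by omega
        have h5 : e.2 ≠ s.n := by omega
        simpa [h4, h5] using h3
  wfNA := by
    intro e he
    obtain ⟨h1, h2, h3⟩ := h.wfNA e he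
    show e.1 < s.n + 1 ∧ e.2 < s.n + 1 ∧ _
    refine ⟨by omega, by omega, ?_⟩
    have h4 : e.1 ≠ s.n := by omega
    have h5 : e.2 ≠ s.n := by omega
    simpa [h4, h5] using h3
  wfNR := by
    intro e he
    obtain ⟨h1, h2, h3, h3'⟩ := h.wfNR e he
    show e.1 < s.n + 1 ∧ e.2 < s.n + 1 ∧ e.1 ≠ e.2 ∧ _
    refine ⟨by omega, by omega, h3, ?_⟩
    have h4 : e.1 ≠ s.n := by omega
    have h5 : e.2 ≠ s.n := by omega
    simpa [h4, h5] using h3'

theorem OPT_sub (g : ℕ) (s : St) (t : Tb) (x y k : ℕ) (a : St) (h : a ∈ optW g s t x y k) : a ∈ optW g s t x y (k + 1) := by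
  unfold optW
  cases h1 : tb (ent t.R x) k
  · cases h2 : tb (ent t.R y) k
    · simp only [cond_false]
      cases h3 : (tb (ent t.P x) k && tb (ent t.P k) y && withTb g (s.add x k) (fun t' => tb (ent t'.P k) y))
      · simpa using h
      · simp only [cond_true]
        exact List.mem_cons_of_mem _ h
    · simp only [cond_false, cond_true]
      cases h3 : tb (ent t.P x) k
      · simpa using h
      · simp only [cond_true]
        exact List.mem_cons_of_mem _ h
  · simp only [cond_true]
    cases h3 : tb (ent t.P k) y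
    · simpa using h
    · simp only [cond_true]
      exact List.mem_cons_of_mem _ h

theorem OPT_le (g : ℕ) (s : St) (t : Tb) (x y : ℕ) (a : St) : ∀ k m, k ≤ m → a ∈ optW g s t x y k → a ∈ optW g s t x y m := by
  intro k m hkm
  induction m, hkm using Nat.le_induction with
  | base => exact fun h => h
  | succ m _ ih => exact fun h => OPT_sub g s t x y m a (ih h)

theorem OPT (hWTB : WTB_stmt) (hSPP : SPP_stmt) (hSOO : SOO_stmt) : OPT_stmt := by
  intro V G g s v hg hC hG hR hn x y hx hy hxy
  obtain ⟨hne, hor⟩ := hxy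
  have hxy' : x ≠ y := fun h => hne (by rw [h])
  rcases hor with h | ⟨z, hxz, hzy⟩
  · refine ⟨s.add x y, ?_, v, OPT_radd hR hx hy h⟩
    have h1 := hSPP V G g s v hg hC hG hR x y hx hy h
    unfold opts
    rw [h1]
    simp
  · by_cases hz : ∃ w < s.n, z = v w
    · obtain ⟨w, hw, rfl⟩ := hz
      have hPxw := hSPP V G g s v hg hC hG hR x w hx hw hxz
      have hPwy := hSPP V G g s v hg hC hG hR w y hw hy hzy
      have hmem : ∀ a, a ∈ optW g s (tbl g s) x y (w + 1) → a ∈ opts g s (tbl g s) x y := by
        intro a ha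
        unfold opts
        exact List.mem_append_left _ (List.mem_append_right _ (OPT_le g s _ x y a (w + 1) s.n hw ha))
      cases h1 : tb (ent (tbl g s).R x) w
      · cases h2 : tb (ent (tbl g s).R y) w
        · have hR1 : Real G (s.add x w) v := OPT_radd hR hx hw hxz
          refine ⟨(s.add x w).add w y, hmem _ ?_, v, OPT_radd hR1 hw hy hzy⟩
          have h3 : tb (ent (tbl g (s.add x w)).P w) y = true := hSPP V G g (s.add x w) v hg hC hG hR1 w y hw hy hzy
          have h4 : withTb g (s.add x w) (fun t' => tb (ent t'.P w) y) = true := by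
            rw [hWTB.1]
            exact h3
          unfold optW
          rw [h1, h2, hPxw, hPwy, h4]
          simp
        · refine ⟨s.add x w, hmem _ ?_, v, OPT_radd hR hx hw hxz⟩
          unfold optW
          rw [h1, h2, hPxw]
          simp
      · refine ⟨s.add w y, hmem _ ?_, v, OPT_radd hR hw hy hzy⟩
        unfold optW
        rw [h1, hPwy]
        simp
    · have hz' : ∀ w < s.n, z ≠ v w := by
        intro w hw h
        exact hz ⟨w, hw, h⟩
      refine ⟨s.new2 x y, ?_, _, OPT_rnew hR hn hx hy hz' hxz hzy⟩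
      have h1 := hSOO V G g s v hg hC hG hR x y hx hy hxy' z hz' hxz hzy
      unfold opts
      rw [h1]
      simp

end Pool.Agent.helper62.DP8
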